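import Pool.Agent.Helper10.RC.Props

/-!
# The GNS representation of a tracial state, with the right multiplications
-/

set_option autoImplicit false

open scoped ENNReal NNReal InnerProductSpace ComplexOrder
open Filter Topology UniformSpace Completion

attribute [-instance] CStarMatrix.instAlgebra CStarMatrix.instModule CStarMatrix.instSMul
  CStarMatrix.instMulAction CStarMatrix.instDistribMulAction

noncomputable section
namespace RC
universe u
namespace H95

variable {A : Type u} [CStarAlgebra A] [PartialOrder A] [StarOrderedRing A]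

/-- the positive functional of the trace -/
def fn (φ : TState A) : A →ₚ[ℂ] ℂ := PositiveLinearMap.mk₀ φ.φ φ.nonneg

theorem fn_apply (φ : TState A) (a : A) : fn φ a = φ.φ a := rfl

/-- right multiplication on the pre-GNS space -/
def rmul (φ : TState A) (b : A) : (fn φ).PreGNS →L[ℂ] (fn φ).PreGNS :=
  ((fn φ).toPreGNS.toLinearMap ∘ₗ LinearMap.mulRight ℂ b ∘ₗ
    (fn φ).ofPreGNS.toLinearMap).mkContinuous ‖b‖ fun x ↦ by
    rw [← sq_le_sq₀ (by positivity) (by positivity), mul_pow, ← RCLike.ofReal_le_ofReal (K := ℂ),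
      RCLike.ofReal_pow, RCLike.ofReal_eq_complex_ofReal, PositiveLinearMap.preGNS_norm_sq]
    set y : A := (fn φ).ofPreGNS x with hy
    have h1 : y * (b * star b) * star y ≤ ‖b‖ ^ 2 • (y * star y) := by
      have := CStarAlgebra.star_right_conjugate_le_norm_smul (a := y) (b := b * star b)
        (IsSelfAdjoint.mul_star_self b)
      rwa [CStarRing.norm_self_mul_star, ← sq] at this
    have h2 : fn φ (star (y * b) * (y * b)) = fn φ (y * (b * star b) * star y) := by
      simp only [fn_apply]
      rw [star_mul, mul_assoc, φ.trace (star b), φ.trace (y * (b * star b))]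
      congr 1
      simp only [mul_assoc]
    calc fn φ (star (y * b) * (y * b)) = fn φ (y * (b * star b) * star y) := h2
      _ ≤ fn φ (‖b‖ ^ 2 • (y * star y)) := OrderHomClass.mono (fn φ) h1
      _ = fn φ (‖b‖ ^ 2 • (star y * y)) := by
          simp only [fn_apply]
          rw [← Complex.coe_smul, ← Complex.coe_smul, map_smul, map_smul, φ.trace y (star y)]
      _ = _ := by
          rw [← Complex.coe_smul, map_smul]
          rw [hy]
          simp [← PositiveLinearMap.preGNS_norm_sq]

theorem rmul_apply (φ : TState A) (b : A) (a : A) :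
    rmul φ b ((fn φ).toPreGNS a) = (fn φ).toPreGNS (a * b) := rfl

end H95

theorem gnsP : GnsP.{u} := by
  intro A _ _ _ φ
  refine ⟨(H95.fn φ).GNS, inferInstance, inferInstance, inferInstance,
    (H95.fn φ).gnsStarAlgHom, fun b => (H95.rmul φ b).completion,
    (((H95.fn φ).toPreGNS (1 : A) : (H95.fn φ).PreGNS) : (H95.fn φ).GNS), ?_⟩
  have key : ∀ a : A, (H95.fn φ).gnsStarAlgHom a
      (((H95.fn φ).toPreGNS (1 : A) : (H95.fn φ).PreGNS) : (H95.fn φ).GNS) =
      (((H95.fn φ).toPreGNS a : (H95.fn φ).PreGNS) : (H95.fn φ).GNS) := by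
    intro a
    rw [PositiveLinearMap.gnsStarAlgHom_apply]
    erw [PositiveLinearMap.gnsNonUnitalStarAlgHom_apply_coe]
    simp
  refine ⟨?_, ?_, ?_⟩
  · intro a
    rw [key, UniformSpace.Completion.inner_coe, PositiveLinearMap.preGNS_inner_def]
    simp [H95.fn_apply]
  · intro a b
    rw [key, key]
    rw [ContinuousLinearMap.completion_apply_coe, H95.rmul_apply]
  · have h : (Set.range fun a => (H95.fn φ).gnsStarAlgHom a
      (((H95.fn φ).toPreGNS (1 : A) : (H95.fn φ).PreGNS) : (H95.fn φ).GNS)) =
      Set.range ((↑) : (H95.fn φ).PreGNS → (H95.fn φ).GNS) := by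
      ext z
      constructor
      · rintro ⟨a, rfl⟩
        exact ⟨(H95.fn φ).toPreGNS a, (key a).symm⟩
      · rintro ⟨a, rfl⟩
        exact ⟨(H95.fn φ).ofPreGNS a, key _⟩
    rw [h]
    exact UniformSpace.Completion.denseRange_coe

end RC
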